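import Mathlib
import Pool.Agent.Q269.Jes.Prim

/-!
# Jeśmanowicz's conjecture for almost all Pythagorean triples

For every `K`, for one hundred per cent of the primitive Pythagorean triples `(a, b, c)` (ordered by
`c`), the equation `(ka)^x + (kb)^y = (kc)^z` has only the solution `(2, 2, 2)` for all `k ≤ K`.
-/

namespace Pool.Agent.Results.MP_252f3f_nt.AlmostAllTriples

open Filter Topology

/-- Jeśmanowicz's assertion for `(a, b, c)`: the only solution of `a^x + b^y = c^z` in positive
integers is `x = y = z = 2`. -/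
def Holds (a b c : ℕ) : Prop :=
  ∀ x y z : ℕ, 0 < x → 0 < y → 0 < z → a ^ x + b ^ y = c ^ z → x = 2 ∧ y = 2 ∧ z = 2

/-- The primitive Pythagorean triples `(a, b, c)` (of positive integers) with `c ≤ N`. -/
def Primitive (N : ℕ) : Set (ℕ × ℕ × ℕ) :=
  {t | 0 < t.1 ∧ 0 < t.2.1 ∧ t.1 ^ 2 + t.2.1 ^ 2 = t.2.2 ^ 2 ∧ Nat.Coprime t.1 t.2.1 ∧ t.2.2 ≤ N}

/-- The triples of `Primitive N` for which the assertion holds for `(ka, kb, kc)`, for all `k` with
`1 ≤ k ≤ K`. -/
def Good (K N : ℕ) : Set (ℕ × ℕ × ℕ) :=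
  {t ∈ Primitive N | ∀ k : ℕ, 1 ≤ k → k ≤ K → Holds (k * t.1) (k * t.2.1) (k * t.2.2)}

/-- **Jeśmanowicz's conjecture for almost all primitive Pythagorean triples and their multiples.**
There is a constant `δ > 0` such that there are at least `δ N` primitive Pythagorean triples with
`c ≤ N` for large `N`; for every `K` the proportion of those `(a, b, c)` among them for which all
the multiples `(ka, kb, kc)`, `1 ≤ k ≤ K`, satisfy the conjecture tends to `1`. -/
theorem result :
    (∃ δ : ℝ, 0 < δ ∧ ∀ᶠ N : ℕ in atTop, δ * N ≤ (Primitive N).ncard) ∧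
    ∀ K : ℕ, Tendsto (fun N : ℕ => ((Good K N).ncard : ℝ) / (Primitive N).ncard) atTop (𝓝 1) := by
  classical
  have hP : ∀ N, Primitive N = Q269.Jes.Prim N := fun N => rfl
  constructor
  · refine ⟨1 / 256, by norm_num, ?_⟩
    filter_upwards [eventually_ge_atTop 8] with N hN
    set K := Nat.sqrt (N / 8) with hK
    have hK1 : 1 ≤ K := by
      rw [hK, Nat.le_sqrt]
      omega
    have hK8 : 8 * K ^ 2 ≤ N := by
      have : K ^ 2 ≤ N / 8 := by rw [sq]; exact Nat.sqrt_le _
      omega
    have hNK : N ≤ 32 * K ^ 2 := by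
      have h1 : N / 8 < (K + 1) * (K + 1) := Nat.lt_succ_sqrt _
      have h2 : N < 8 * ((K + 1) * (K + 1)) := by omega
      nlinarith
    have hlow := Q269.Jes.Prim_lower K N hK8
    have h3 : (N : ℝ) ≤ 32 * (K : ℝ) ^ 2 := by exact_mod_cast hNK
    rw [hP]
    linarith
  · intro K
    -- the exceptional triples for each `k`
    have hbad : ∀ ε : ℝ, 0 < ε → ∃ N0 : ℕ, ∀ N : ℕ, N0 ≤ N → 0 < (Primitive N).ncard ∧
        ((Primitive N).ncard : ℝ) - (Good K N).ncard ≤ ε * (Primitive N).ncard := by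
      intro ε hε
      have h1 : ∀ k : ℕ, ∃ N0 : ℕ, ∀ N : ℕ, N0 ≤ N → 0 < (Q269.Jes.Prim N).ncard ∧
          ((Q269.Jes.Exc (k + 1) N).ncard : ℝ) ≤ ε / (K + 1) * (Q269.Jes.Prim N).ncard :=
        fun k => Q269.Jes.Exc_density (Nat.succ_pos k) (by positivity)
      choose N0 hN0 using h1
      refine ⟨(Finset.range (K + 1)).sup N0, fun N hN => ?_⟩
      have h2 : ∀ k ∈ Finset.range (K + 1), N0 k ≤ N := fun k hk =>
        (Finset.le_sup (f := N0) hk).trans hN
      refine ⟨(hN0 0 N (h2 0 (Finset.mem_range.2 (Nat.succ_pos K)))).1, ?_⟩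
      have h3 : Primitive N ⊆ Good K N ∪
          ⋃ k ∈ Finset.range (K + 1), Q269.Jes.Exc (k + 1) N := by
        intro t ht
        by_contra hcon
        rw [Set.mem_union, not_or] at hcon
        obtain ⟨hc1, hc2⟩ := hcon
        apply hc1
        refine ⟨ht, fun k hk1 hkK x y z hx hy hz h => ?_⟩
        by_contra hne
        apply hc2
        rw [Set.mem_iUnion₂]
        refine ⟨k - 1, Finset.mem_range.2 (by omega), ht, x, y, z, hx, hy, hz, ?_, hne⟩
        rw [Nat.sub_add_cancel hk1]
        exact h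
      have hPf : (Primitive N).Finite := Q269.Jes.Prim_finite N
      have hGf : (Good K N).Finite := hPf.subset (fun t ht => ht.1)
      have hEf : ∀ k, (Q269.Jes.Exc k N).Finite := fun k => hPf.subset (fun t ht => ht.1)
      have h4 : (Primitive N).ncard ≤ (Good K N).ncard +
          ∑ k ∈ Finset.range (K + 1), (Q269.Jes.Exc (k + 1) N).ncard := by
        refine (Set.ncard_le_ncard h3 (hGf.union (Set.Finite.biUnion (Finset.finite_toSet _)
          (fun k _ => hEf _)))).trans ?_
        refine (Set.ncard_union_le _ _).trans (Nat.add_le_add_left ?_ _)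
        exact Finset.set_ncard_biUnion_le _ _
      have h5 : ((Primitive N).ncard : ℝ) ≤ (Good K N).ncard +
          ∑ k ∈ Finset.range (K + 1), ((Q269.Jes.Exc (k + 1) N).ncard : ℝ) := by exact_mod_cast h4
      have h6 : ∑ k ∈ Finset.range (K + 1), ((Q269.Jes.Exc (k + 1) N).ncard : ℝ) ≤
          ∑ k ∈ Finset.range (K + 1), ε / (K + 1) * (Primitive N).ncard :=
        Finset.sum_le_sum fun k hk => (hN0 k N (h2 k hk)).2
      rw [Finset.sum_const, Finset.card_range, nsmul_eq_mul] at h6
      have h7 : ((K + 1 : ℕ) : ℝ) * (ε / (K + 1) * (Primitive N).ncard) =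
          ε * (Primitive N).ncard := by
        push_cast
        field_simp
      linarith
    rw [Metric.tendsto_atTop]
    intro ε hε
    obtain ⟨N0, hN0⟩ := hbad (ε / 2) (by positivity)
    refine ⟨N0, fun N hN => ?_⟩
    obtain ⟨h1, h2⟩ := hN0 N hN
    have h1' : (0 : ℝ) < (Primitive N).ncard := by exact_mod_cast h1
    have h3 : (Good K N).ncard ≤ (Primitive N).ncard :=
      Set.ncard_le_ncard (fun t ht => ht.1) (Q269.Jes.Prim_finite N)
    have h3' : ((Good K N).ncard : ℝ) ≤ (Primitive N).ncard := by exact_mod_cast h3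
    rw [Real.dist_eq, abs_sub_lt_iff]
    constructor
    · have : ((Good K N).ncard : ℝ) / (Primitive N).ncard ≤ 1 := div_le_one_of_le₀ h3' h1'.le
      linarith
    · have : 1 - ε / 2 ≤ ((Good K N).ncard : ℝ) / (Primitive N).ncard := by
        rw [le_div_iff₀ h1']
        linarith
      linarith

end Pool.Agent.Results.MP_252f3f_nt.AlmostAllTriples
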